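import Pool.Agent.Lib.MP_6c3d62_pr.PL.Par6

/-! LOCAL: the parameters of block (1); everything is a power of `log s`, uniformly in `L`. -/

open Filter

set_option linter.unusedSectionVars false
set_option autoImplicit false

namespace Pool.Agent.PL

/-- The conditions of block (1), local version, with `h₀ = b ^ a1` and `r₀ = b ^ a1`. -/
theorem par_hidden_loc (d a1 A : ℕ) (hd : 1 ≤ d) (ha1 : 3 * d + 4 ≤ a1) (hA : 1 ≤ A) :
    ∀ᶠ s : ℕ in atTop, ∀ b : ℕ, Real.log s ^ A ≤ b → (b : ℝ) ≤ 2 * Real.log s ^ A →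
      ∀ L : ℕ, s ≤ L →
      1 ≤ b ∧ 8 * b ≤ b ^ a1 ∧ 2 * b ^ a1 ≤ L ∧ ((b ^ a1 : ℕ) : ℝ) ≤ 8 * (b : ℝ) ^ a1 ∧
      128 * (b : ℝ) ^ a1 * Real.log (16 * d * (b : ℝ) ^ d) ≤ ((b ^ a1 : ℕ) : ℝ) ^ 2 ∧
      1024 * 12 ^ d * (d : ℝ) ^ 2 * (b : ℝ) ^ 2 * ((b : ℝ) ^ d) ^ 3 *
        Real.log (((b ^ a1 : ℕ) : ℝ) ^ d) ≤ (b : ℝ) ^ a1 ∧
      1 / (b : ℝ) ^ (a1 * d) ≤
        (((L / b ^ a1) ^ d : ℕ) : ℝ) * ((b ^ d : ℕ) : ℝ) / ((L ^ d : ℕ) : ℝ) ∧
      (((L / b ^ a1) ^ d : ℕ) : ℝ) * ((b ^ d : ℕ) : ℝ) / ((L ^ d : ℕ) : ℝ) ≤ 1 := by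
  have hd0 : (1 : ℝ) ≤ d := by exact_mod_cast hd
  have hev := ev_log_pow_le (A * a1) (2 * 2 ^ a1)
  have ha1' : (1 : ℝ) ≤ a1 := by exact_mod_cast (by omega : 1 ≤ a1)
  filter_upwards [ev_b_ge hA (2048 * 12 ^ d * (d : ℝ) ^ 3 * a1), hev, eventually_ge_atTop 1]
    with s hbL hL2 hL1 b hb1 hb2 L hsL
  obtain ⟨hbM', hl1, hlb⟩ := hbL b hb1
  have hLp : (0 : ℝ) < L := by exact_mod_cast (by omega : 0 < L)
  have hbM : 2048 * 12 ^ d * (d : ℝ) ^ 3 ≤ b := by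
    refine le_trans ?_ hbM'
    have : 0 ≤ 2048 * 12 ^ d * (d : ℝ) ^ 3 := by positivity
    nlinarith
  have h12 : (1 : ℝ) ≤ 12 ^ d := one_le_pow₀ (by norm_num)
  have hd3 : (1 : ℝ) ≤ (d : ℝ) ^ 3 := one_le_pow₀ hd0
  have hb2048 : (2048 : ℝ) ≤ b := by
    refine le_trans ?_ hbM
    calc (2048 : ℝ) = 2048 * 1 * 1 := by norm_num
      _ ≤ 2048 * 12 ^ d * (d : ℝ) ^ 3 := by gcongr
  have hb1' : (1 : ℝ) ≤ b := by linarith
  have hb0 : (0 : ℝ) < b := by linarith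
  have hbn : 2048 ≤ b := by exact_mod_cast hb2048
  have hbn0 : 0 < b := by omega
  have h8 : 8 * b ≤ b ^ a1 := by
    calc 8 * b ≤ b * b := Nat.mul_le_mul_right _ (by omega)
      _ = b ^ 2 := by ring
      _ ≤ b ^ a1 := Nat.pow_le_pow_right hbn0 (by omega)
  have hr0L : 2 * b ^ a1 ≤ L := by
    have h1 : (b : ℝ) ^ a1 ≤ 2 ^ a1 * Real.log s ^ (A * a1) := by
      calc (b : ℝ) ^ a1 ≤ (2 * Real.log s ^ A) ^ a1 := pow_le_pow_left₀ hb0.le hb2 a1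
        _ = 2 ^ a1 * Real.log s ^ (A * a1) := by rw [mul_pow, ← pow_mul]
    have h2 : 2 * (b : ℝ) ^ a1 ≤ s := by nlinarith
    have h3 : 2 * b ^ a1 ≤ s := by exact_mod_cast h2
    omega
  have hr0p : 0 < b ^ a1 := Nat.pow_pos hbn0
  refine ⟨by omega, h8, hr0L, ?_, ?_, ?_, ?_, ?_⟩
  · push_cast
    have : 0 < (b : ℝ) ^ a1 := by positivity
    linarith
  · push_cast
    have h1 : Real.log (16 * d * (b : ℝ) ^ d) ≤ 16 * d * (b : ℝ) ^ d :=
      (Real.log_le_sub_one_of_pos (by positivity)).trans (by linarith)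
    have h2 : 128 * (16 * d * (b : ℝ) ^ d) ≤ (b : ℝ) ^ a1 := by
      have h3 : (b : ℝ) ^ (d + 1) ≤ (b : ℝ) ^ a1 := pow_le_pow_right₀ hb1' (by omega)
      have h4 : 2048 * (d : ℝ) ≤ b := by
        refine le_trans ?_ hbM
        have h5 : (d : ℝ) ≤ (d : ℝ) ^ 3 := by
          conv_lhs => rw [← pow_one (d : ℝ)]
          exact pow_le_pow_right₀ hd0 (by norm_num)
        calc 2048 * (d : ℝ) ≤ 2048 * (d : ℝ) ^ 3 := by linarith
          _ = 2048 * 1 * (d : ℝ) ^ 3 := by ring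
          _ ≤ 2048 * 12 ^ d * (d : ℝ) ^ 3 := by gcongr
      have h6 : 0 < (b : ℝ) ^ d := by positivity
      calc 128 * (16 * d * (b : ℝ) ^ d) = (2048 * d) * (b : ℝ) ^ d := by ring
        _ ≤ b * (b : ℝ) ^ d := by gcongr
        _ = (b : ℝ) ^ (d + 1) := by ring
        _ ≤ _ := h3
    have h7 : 0 < (b : ℝ) ^ a1 := by positivity
    calc 128 * (b : ℝ) ^ a1 * Real.log (16 * d * (b : ℝ) ^ d) =
        (b : ℝ) ^ a1 * (128 * Real.log (16 * d * (b : ℝ) ^ d)) := by ring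
      _ ≤ (b : ℝ) ^ a1 * (b : ℝ) ^ a1 := by
        refine mul_le_mul_of_nonneg_left (le_trans ?_ h2) h7.le
        linarith
      _ = ((b : ℝ) ^ a1) ^ 2 := by ring
  · push_cast
    rw [Real.log_pow, Real.log_pow]
    have h3 : (b : ℝ) ^ (3 * d + 4) ≤ (b : ℝ) ^ a1 := pow_le_pow_right₀ hb1' ha1
    have h4 : 1024 * 12 ^ d * (d : ℝ) ^ 3 * a1 ≤ b := by
      have : 0 ≤ 12 ^ d * (d : ℝ) ^ 3 * a1 := by positivity
      linarith
    have h6 : Real.log b ≤ b := by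
      have := Real.log_le_sub_one_of_pos hb0
      linarith
    have h7 : 0 ≤ Real.log b := Real.log_nonneg hb1'
    calc 1024 * 12 ^ d * (d : ℝ) ^ 2 * (b : ℝ) ^ 2 * ((b : ℝ) ^ d) ^ 3 *
          (d * (a1 * Real.log b)) =
        (1024 * 12 ^ d * (d : ℝ) ^ 3 * a1) * ((b : ℝ) ^ 2 * ((b : ℝ) ^ d) ^ 3) * Real.log b := by
          ring
      _ ≤ b * ((b : ℝ) ^ 2 * ((b : ℝ) ^ d) ^ 3) * b := by
        have h5 : 0 < (b : ℝ) ^ 2 * ((b : ℝ) ^ d) ^ 3 := by positivity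
        gcongr
      _ = (b : ℝ) ^ (3 * d + 4) := by ring
      _ ≤ _ := h3
  · -- lower bound for the density
    have h1 : L ≤ 2 * b ^ a1 * (L / b ^ a1) := by
      have h2 := Nat.lt_mul_div_succ L hr0p
      have h3 : 1 ≤ L / b ^ a1 := by
        rw [Nat.one_le_div_iff hr0p]
        omega
      calc L ≤ b ^ a1 * (L / b ^ a1 + 1) := h2.le
        _ ≤ b ^ a1 * (L / b ^ a1 + L / b ^ a1) := by
          apply Nat.mul_le_mul_left
          omega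
        _ = 2 * b ^ a1 * (L / b ^ a1) := by ring
    have h2 : L ^ d ≤ b ^ (a1 * d) * ((L / b ^ a1) ^ d * b ^ d) := by
      calc L ^ d ≤ (2 * b ^ a1 * (L / b ^ a1)) ^ d := Nat.pow_le_pow_left h1 d
        _ ≤ (b * b ^ a1 * (L / b ^ a1)) ^ d := by
          apply Nat.pow_le_pow_left
          apply Nat.mul_le_mul_right
          apply Nat.mul_le_mul_right
          omega
        _ = b ^ (a1 * d) * ((L / b ^ a1) ^ d * b ^ d) := by
          rw [mul_pow, mul_pow, ← pow_mul]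
          ring
    have h3 : ((L ^ d : ℕ) : ℝ) ≤ (b : ℝ) ^ (a1 * d) *
        ((((L / b ^ a1) ^ d : ℕ) : ℝ) * ((b ^ d : ℕ) : ℝ)) := by exact_mod_cast h2
    have h4 : (0 : ℝ) < ((L ^ d : ℕ) : ℝ) := by
      push_cast
      positivity
    rw [div_le_div_iff₀ (by positivity) h4, one_mul]
    linarith
  · have h1 : (L / b ^ a1) ^ d * b ^ d ≤ L ^ d := by
      rw [← mul_pow]
      apply Nat.pow_le_pow_left
      calc L / b ^ a1 * b ≤ L / b ^ a1 * b ^ a1 := by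
            apply Nat.mul_le_mul_left
            calc b = b ^ 1 := (pow_one b).symm
              _ ≤ b ^ a1 := Nat.pow_le_pow_right hbn0 (by omega)
        _ ≤ L := Nat.div_mul_le_self _ _
    have h4 : (0 : ℝ) < ((L ^ d : ℕ) : ℝ) := by
      push_cast
      positivity
    rw [div_le_one h4]
    exact_mod_cast h1

end Pool.Agent.PL
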