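import Pool.Agent.Lib.MP_6c3d62_pr.Mg.G074
import Pool.Agent.Lib.MP_6c3d62_pr.Mg.G071
import Pool.Agent.Lib.MP_6c3d62_pr.Mg.G025

/-!
# LOCAL version, C1: the laws of far apart points of a box, uniformly in the size of the torus
-/

open Finset Filter Topology

set_option autoImplicit false
set_option linter.unusedSectionVars false

namespace Pool.Agent.Stirring.LC

open Pool.Agent.Stirring Pool.Agent.PL Pool.Agent.Stirring.TN

/-- The size conditions. -/
theorem far_par (K0 K1 K2 K3 ε : ℝ) (hε : 0 < ε) : ∀ᶠ s : ℕ in atTop,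
    64 ≤ s ∧ K0 ≤ Real.log s ∧ K1 / Real.log s ≤ ε / 2 ∧ K2 / Real.log s ≤ ε / 2 ∧
      K3 ≤ (s : ℝ) := by
  have h1 := eventually_ge_atTop 64
  have h2 := tendsto_log_nat.eventually_ge_atTop K0
  have hdiv : ∀ K : ℝ, ∀ᶠ s : ℕ in atTop, K / Real.log s ≤ ε / 2 := by
    intro K
    have h5 : Tendsto (fun L : ℕ => K / Real.log L) atTop (𝓝 0) :=
      tendsto_const_nhds.div_atTop tendsto_log_nat
    filter_upwards [h5.eventually_lt_const (by linarith : (0 : ℝ) < ε / 2)] with L hL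
    exact hL.le
  have h5 : ∀ᶠ s : ℕ in atTop, K3 ≤ (s : ℝ) :=
    (tendsto_natCast_atTop_atTop (R := ℝ)).eventually_ge_atTop K3
  filter_upwards [h1, h2, hdiv K1, hdiv K2, h5] with L a1 a2 a3 a4 a5
  exact ⟨a1, a2, a3, a4, a5⟩

/-- The cost of the insertion, uniformly in the size of the torus. -/
theorem eta_num {d N : ℕ} {x t b : ℝ} (hx : 1 ≤ x) (hb : 0 ≤ b) (hbN : b ≤ x ^ N)
    (ht : x ^ (4 * (N + 1)) ≤ t) : b * eta d t ≤ 3 * Real.sqrt (7 * d) / x := by
  have hx0 : 0 < x := by linarith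
  set w : ℝ := x ^ (N + 1) with hw
  have hw1 : 1 ≤ w := one_le_pow₀ hx
  have hw0 : 0 < w := by linarith
  have hwt : w ^ 4 ≤ t := by
    refine le_trans (le_of_eq ?_) ht
    rw [hw, ← pow_mul]
    congr 1
    ring
  have ht1 : 1 ≤ t := (one_le_pow₀ hw1).trans hwt
  have ht0 : 0 < t := by linarith
  set u : ℝ := Real.sqrt t with hu
  have hwu : w ^ 2 ≤ u := by
    refine Real.le_sqrt_of_sq_le ?_
    calc (w ^ 2) ^ 2 = w ^ 4 := by ring
      _ ≤ t := hwt
  have hu1 : 1 ≤ u := (one_le_pow₀ hw1).trans hwu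
  have hu0 : 0 < u := by linarith
  have huu : u * u = t := Real.mul_self_sqrt ht0.le
  have hlog : Real.log t ≤ 2 * (u - 1) := by
    rw [← huu, Real.log_mul hu0.ne' hu0.ne']
    have := Real.log_le_sub_one_of_pos hu0
    linarith
  have h1 : (d : ℝ) * (5 + Real.log t) / t ≤ 7 * d / w ^ 2 := by
    rw [div_le_div_iff₀ ht0 (by positivity)]
    have h2 : (0 : ℝ) ≤ d := Nat.cast_nonneg d
    have h3 : (5 + Real.log t) ≤ 7 * u := by linarith
    calc (d : ℝ) * (5 + Real.log t) * w ^ 2 ≤ d * (7 * u) * w ^ 2 := by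
          refine mul_le_mul_of_nonneg_right ?_ (by positivity)
          exact mul_le_mul_of_nonneg_left h3 h2
      _ ≤ d * (7 * u) * u := mul_le_mul_of_nonneg_left hwu (by positivity)
      _ = 7 * d * (u * u) := by ring
      _ = 7 * d * t := by rw [huu]
  have h2 : eta d t ≤ 3 * (Real.sqrt (7 * d) / w) := by
    unfold eta
    refine mul_le_mul_of_nonneg_left ?_ (by norm_num)
    refine (Real.sqrt_le_sqrt h1).trans (le_of_eq ?_)
    rw [Real.sqrt_div (by positivity), Real.sqrt_sq hw0.le]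
  have h3 : b * eta d t ≤ x ^ N * (3 * (Real.sqrt (7 * d) / w)) :=
    mul_le_mul hbN h2 (eta_nonneg d t) (by positivity)
  refine h3.trans (le_of_eq ?_)
  rw [hw, pow_succ]
  field_simp

/-- The conditions on `κ = (7 d + 7) log s`. -/
theorem kappa_num' {d J : ℕ} {s b C : ℝ} (hd : 2 ≤ d) (hs : 64 ≤ s) (hC : 1 ≤ C)
    (hJs : (J : ℝ) ≤ s) (hb1 : 1 ≤ b) (hbs : b ≤ s) (hb8 : Real.log s ^ 8 ≤ b)
    (hK0 : C * (7 * d + 7) ^ 2 ≤ Real.log s) (h2 : (2 : ℝ) ^ (6 * d + 6) ≤ s) :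
    1 ≤ (7 * d + 7) * Real.log s ∧ C * ((7 * d + 7) * Real.log s) ^ 2 ≤ b ^ d ∧
      C * ((7 * d + 7) * Real.log s) * Real.log (((J : ℝ) + 1) * (2 * s) ^ d) ≤
        Real.sqrt (Real.sqrt (b ^ d)) ∧
      (((J : ℝ) + 1) * (2 * s) ^ d) ^ 6 * b ^ d ≤ Real.exp ((7 * d + 7) * Real.log s) ∧
      C / b ^ d ≤ C / Real.log s ∧
      C * (((J : ℝ) + 1) * (2 * s) ^ d) ^ 2 * Real.exp (-((7 * d + 7) * Real.log s / 2)) ≤
        C / s := by
  set x := Real.log s with hx
  have hL0 : 0 < s := by linarith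
  have hd0 : (2 : ℝ) ≤ d := by exact_mod_cast hd
  have h7 : (21 : ℝ) ≤ 7 * d + 7 := by linarith
  have hx1 : (441 : ℝ) ≤ x := by
    refine le_trans ?_ hK0
    nlinarith
  have hx0 : 0 < x := by linarith
  have hb0 : 0 < b := by linarith
  have hb16 : x ^ 16 ≤ b ^ d := by
    calc x ^ 16 = (x ^ 8) ^ 2 := by ring
      _ ≤ b ^ 2 := pow_le_pow_left₀ (by positivity) hb8 2
      _ ≤ b ^ d := pow_le_pow_right₀ hb1 hd
  have hJ0 : (0 : ℝ) ≤ J := Nat.cast_nonneg J
  have h2s : s ≤ 2 * s := by linarith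
  have hX1 : s ≤ ((J : ℝ) + 1) * (2 * s) ^ d := by
    have h1 : (2 * s) ^ 1 ≤ (2 * s) ^ d := pow_le_pow_right₀ (by linarith) (by omega)
    rw [pow_one] at h1
    nlinarith
  have hX2 : ((J : ℝ) + 1) * (2 * s) ^ d ≤ 2 ^ (d + 1) * s ^ (d + 1) := by
    have h1 : (J : ℝ) + 1 ≤ 2 * s := by linarith
    calc ((J : ℝ) + 1) * (2 * s) ^ d ≤ 2 * s * (2 * s) ^ d :=
          mul_le_mul_of_nonneg_right h1 (by positivity)
      _ = 2 ^ (d + 1) * s ^ (d + 1) := by rw [mul_pow, pow_succ, pow_succ]; ring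
  have hX0 : 0 < ((J : ℝ) + 1) * (2 * s) ^ d := by linarith
  set X := ((J : ℝ) + 1) * (2 * s) ^ d with hX
  have hexp : Real.exp ((7 * d + 7) * x) = s ^ (7 * d + 7) := by
    have h1 : ((7 : ℝ) * d + 7) * x = ((7 * d + 7 : ℕ) : ℝ) * x := by push_cast; ring
    rw [h1, Real.exp_nat_mul, hx, Real.exp_log hL0]
  have h4 : X ^ 6 * b ^ d ≤ Real.exp ((7 * d + 7) * x) := by
    rw [hexp]
    calc X ^ 6 * b ^ d ≤ (2 ^ (d + 1) * s ^ (d + 1)) ^ 6 * s ^ d :=
          mul_le_mul (pow_le_pow_left₀ hX0.le hX2 6) (pow_le_pow_left₀ hb0.le hbs d)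
            (by positivity) (by positivity)
      _ = 2 ^ (6 * d + 6) * s ^ (7 * d + 6) := by
          rw [mul_pow, ← pow_mul, ← pow_mul, mul_assoc, ← pow_add]
          congr 2 <;> ring
      _ ≤ s * s ^ (7 * d + 6) := mul_le_mul_of_nonneg_right h2 (by positivity)
      _ = s ^ (7 * d + 7) := by ring
  have hbd1 : 1 ≤ b ^ d := one_le_pow₀ hb1
  refine ⟨by nlinarith, ?_, ?_, h4, ?_, ?_⟩
  · refine le_trans ?_ hb16
    calc C * ((7 * d + 7) * x) ^ 2 = (C * (7 * d + 7) ^ 2) * x ^ 2 := by ring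
      _ ≤ x * x ^ 2 := mul_le_mul_of_nonneg_right hK0 (by positivity)
      _ = x ^ 3 := by ring
      _ ≤ x ^ 16 := pow_le_pow_right₀ (by linarith) (by norm_num)
  · have h5 : Real.log X ≤ (d + 2) * x := by
      have h6 : X ≤ s ^ (d + 2) := by
        refine hX2.trans ?_
        calc (2 : ℝ) ^ (d + 1) * s ^ (d + 1) ≤ s * s ^ (d + 1) := by
              refine mul_le_mul_of_nonneg_right (le_trans ?_ h2) (by positivity)
              exact pow_le_pow_right₀ (by norm_num) (by omega)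
          _ = s ^ (d + 2) := by ring
      have h7 := Real.log_le_log hX0 h6
      rw [Real.log_pow] at h7
      push_cast at h7
      exact h7
    have h6 : x ^ 4 ≤ Real.sqrt (Real.sqrt (b ^ d)) := by
      refine Real.le_sqrt_of_sq_le (Real.le_sqrt_of_sq_le ?_)
      calc ((x ^ 4) ^ 2) ^ 2 = x ^ 16 := by ring
        _ ≤ b ^ d := hb16
    refine le_trans ?_ h6
    have h8 : C * ((7 * d + 7) * x) * Real.log X ≤ C * ((7 * d + 7) * x) * ((d + 2) * x) :=
      mul_le_mul_of_nonneg_left h5 (by positivity)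
    refine h8.trans ?_
    have h9 : ((d : ℝ) + 2) ≤ 7 * d + 7 := by linarith
    calc C * ((7 * d + 7) * x) * ((d + 2) * x) ≤ C * ((7 * d + 7) * x) * ((7 * d + 7) * x) := by
          refine mul_le_mul_of_nonneg_left ?_ (by positivity)
          exact mul_le_mul_of_nonneg_right h9 hx0.le
      _ = (C * (7 * d + 7) ^ 2) * x ^ 2 := by ring
      _ ≤ x * x ^ 2 := mul_le_mul_of_nonneg_right hK0 (by positivity)
      _ = x ^ 3 := by ring
      _ ≤ x ^ 4 := pow_le_pow_right₀ (by linarith) (by norm_num)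
  · refine div_le_div_of_nonneg_left (by linarith) hx0 ?_
    calc x = x ^ 1 := (pow_one x).symm
      _ ≤ x ^ 16 := pow_le_pow_right₀ (by linarith) (by norm_num)
      _ ≤ b ^ d := hb16
  · have h5 : (X ^ 3) ^ 2 ≤ Real.exp ((7 * d + 7) * x) := by
      refine le_trans ?_ h4
      have h6 : (X ^ 3) ^ 2 = X ^ 6 := by ring
      rw [h6]
      nlinarith [pow_pos hX0 6]
    have h6 : X ^ 3 ≤ Real.exp ((7 * d + 7) * x / 2) := by
      have h7 : Real.exp ((7 * d + 7) * x) = Real.exp ((7 * d + 7) * x / 2) ^ 2 := by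
        rw [← Real.exp_nat_mul]
        congr 1
        push_cast
        ring
      rw [h7] at h5
      exact (pow_le_pow_iff_left₀ (by positivity) (Real.exp_pos _).le (by norm_num)).mp h5
    rw [mul_assoc, div_eq_mul_inv]
    refine mul_le_mul_of_nonneg_left ?_ (by linarith)
    rw [Real.exp_neg, ← div_eq_mul_inv, div_le_iff₀ (Real.exp_pos _)]
    have h8 : X ^ 2 * s ≤ Real.exp ((7 * d + 7) * x / 2) := by
      refine le_trans ?_ h6
      have h9 : X ^ 3 = X ^ 2 * X := by ring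
      rw [h9]
      exact mul_le_mul_of_nonneg_left hX1 (by positivity)
    rw [← div_eq_inv_mul, le_div_iff₀ hL0]
    exact h8

/-- Far apart points have disjoint windows. -/
theorem not_nearW {d L : ℕ} [NeZero L] {b : ℕ} {x y : Fin d → ZMod L} (h : b < QK.nrm (x - y)) :
    ¬ NearW (QK.box d L b) x y := by
  rintro ⟨u, hu, v, hv, huv⟩
  have h1 : x - y = v - u := by
    have h2 : x = y + v - u := by rw [← huv]; abel
    rw [h2]
    abel
  have h2 := QK.nrm_box hv hu
  rw [h1] at h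
  omega

/-- **C1.** The laws of far apart points of the box of side `s`, uniformly in `L`. -/
theorem klaw_far_of_env (d : ℕ) (hd : 2 ≤ d) {A B : ℕ} {c1 : ℝ} (hc1 : 0 < c1)
    (hev : ∀ᶠ s : ℕ in atTop, ∀ (L : ℕ) [NeZero L], 4 * s ≤ L → EnvGoodL d A B c1 s L) :
    ∀ (k : ℕ) (ε : ℝ), 0 < ε →
    ∃ s₀ : ℕ, ∀ s : ℕ, s₀ ≤ s → ∀ (L : ℕ) [NeZero L], 4 * s ≤ L → ∀ t : ℝ,
      Real.log s ^ (B + 4 * (A * (d + 1) + 1)) ≤ t →
      ∀ z : Fin k → (Fin d → ZMod L), (∀ i, dp 0 s (z i)) →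
        (∀ a b, a ≠ b → Real.log s ^ (A + 1) ≤ (QK.nrm (z a - z b) : ℝ)) →
        ∀ τ : Equiv.Perm (Fin k),
          |expect d L t (fun σ => patI τ σ z) - (relCl τ).card / (k.factorial : ℝ)| ≤ ε := by
  classical
  obtain ⟨C, hC, hin⟩ := inner_bound_local d hd c1 hc1
  intro k ε hε
  have hpar := far_par (C * (7 * d + 7) ^ 2)
    (2 * (k : ℝ) ^ 2 * (k.factorial : ℝ) * (4 * k * C + C) + 1)
    (4 * k * d * (3 * Real.sqrt (7 * d))) ((2 : ℝ) ^ (6 * d + 6)) ε hε
  obtain ⟨s₀, hs₀⟩ := eventually_atTop.mp (hev.and hpar)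
  refine ⟨s₀, ?_⟩
  intro s hs L _ hsL t ht z hdp hzfar τ
  obtain ⟨hE, hs64, hK0, hK2, hK3, hK4⟩ := hs₀ s hs
  obtain ⟨b, J, r, h, M, Kw, Ω, _, S, D0, hb1, hbs, hlogb, hbA, hJ1, hJs, hh, hJh, hr8, hrs, hM,
    hMK, hbJ, hw0, hw1, hmix, hdis, hgD, hDc, hdpD, hbad⟩ := hE L hsL
  have hs64' : (64 : ℝ) ≤ s := by exact_mod_cast hs64
  have hs0 : (0 : ℝ) < s := by linarith
  have hd0 : (2 : ℝ) ≤ d := by exact_mod_cast hd
  have hb1' : (1 : ℝ) ≤ b := by exact_mod_cast hb1
  have hbs' : (b : ℝ) ≤ s := by exact_mod_cast hbs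
  have hbL : b ≤ L := by omega
  obtain ⟨n1, n2, n3, n4, n5, n6⟩ := kappa_num' hd hs64' hC hJs hb1' hbs' hlogb hK0 hK4
  have hx1 : 441 ≤ Real.log s := by
    refine le_trans ?_ hK0
    have h7 : (21 : ℝ) ≤ 7 * d + 7 := by linarith
    nlinarith
  have hx0 : 0 < Real.log s := by linarith
  have htB : Real.log s ^ B ≤ t :=
    (pow_le_pow_right₀ (by linarith) (by omega)).trans ht
  have ht1 : 1 ≤ t := (one_le_pow₀ (by linarith)).trans htB
  have hcard : (QK.box d L b).card = b ^ d := QK.card_box hbL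
  have hcardR : ((QK.box d L b).card : ℝ) = (b : ℝ) ^ d := by rw [hcard]; push_cast; rfl
  have hz : ∀ a c, a ≠ c → ¬ NearW (QK.box d L b) (z a) (z c) := by
    intro a c hac
    refine not_nearW ?_
    have h1 := hzfar a c hac
    have h2 : (b : ℝ) < Real.log s ^ (A + 1) := by
      rw [pow_succ]
      have h3 : (0 : ℝ) < Real.log s ^ A := by positivity
      nlinarith
    exact_mod_cast lt_of_lt_of_le h2 h1
  have hzinj : Function.Injective z := by
    intro i j hij
    by_contra hne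
    exact hz i j hne ⟨0, zero_mem_box hb1, 0, zero_mem_box hb1, by rw [hij]⟩
  have hdM0 := dis_of_far hz
  set M0 : Finset (Fin d → ZMod L) := univ.image z with hM0
  have hM0card : M0.card ≤ k := by
    refine Finset.card_image_le.trans (le_of_eq ?_)
    rw [Finset.card_univ, Fintype.card_fin]
  have hzM : ∀ i, z i ∈ M0 := fun i => Finset.mem_image_of_mem z (Finset.mem_univ i)
  have hM0dp : ∀ v ∈ M0, dp 0 s v := by
    intro v hv
    obtain ⟨i, _, rfl⟩ := Finset.mem_image.mp hv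
    exact hdp i
  have hM0D : M0 ⊆ D0 := fun v hv => hdpD v (hM0dp v hv)
  set c0 : ℝ := (relCl τ).card / (k.factorial : ℝ) with hc0
  have hF0 : ∀ x : Equiv.Perm (Fin d → ZMod L), 0 ≤ patI τ x z := by
    intro x
    unfold patI
    split_ifs
    · exact zero_le_one
    · exact le_rfl
  have hF1 : ∀ x : Equiv.Perm (Fin d → ZMod L), patI τ x z ≤ 1 := by
    intro x
    unfold patI
    split_ifs
    · exact le_rfl
    · exact zero_le_one
  -- the insertion
  set e : ℝ := 2 * (2 * (d * b * (b : ℝ) ^ d) * eta d t) with he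
  have hone : ∀ y (g : Equiv.Perm (Fin d → ZMod L)), (∀ v, v - y ∉ QK.box d L b → g v = v) →
      ∀ H : Equiv.Perm (Fin d → ZMod L) → ℝ, (∀ x, 0 ≤ H x) → (∀ x, H x ≤ 1) →
        |expect d L t (fun x => H (x * g)) - expect d L t H| ≤ e := by
    intro y g hg H hH0 hH1
    have h1 := expect_box (d := d) (L := L) (by omega) (by omega) ht1 hbL g⁻¹
      (fun w hw => by
        rw [Equiv.Perm.inv_eq_iff_eq]
        exact (hg w (box_box hw)).symm) (F := H)
      (fun σ => abs_le.mpr ⟨by linarith [hH0 σ], hH1 σ⟩)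
    rw [inv_inv] at h1
    exact h1
  have hins := insert_marked (by linarith : (0 : ℝ) ≤ t) hone M0 (fun x => patI τ x z) hF0 hF1
  have he0 : 0 ≤ e := by
    have := eta_nonneg d t
    positivity
  have heb : (M0.card : ℝ) * e ≤ ε / 2 := by
    have h1 : (M0.card : ℝ) * e ≤ k * e :=
      mul_le_mul_of_nonneg_right (by exact_mod_cast hM0card) he0
    refine h1.trans (le_trans ?_ hK3)
    have h2 : (b : ℝ) * (b : ℝ) ^ d ≤ Real.log s ^ (A * (d + 1)) := by
      have h3 : (b : ℝ) * (b : ℝ) ^ d = (b : ℝ) ^ (d + 1) := by ring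
      rw [h3, pow_mul]
      exact pow_le_pow_left₀ (by linarith) hbA _
    have h3 := eta_num (d := d) (N := A * (d + 1)) (x := Real.log s) (t := t)
      (b := (b : ℝ) * (b : ℝ) ^ d) (by linarith) (by positivity) h2
      ((pow_le_pow_right₀ (by linarith) (by omega)).trans ht)
    have h4 : (k : ℝ) * e = 4 * k * d * ((b : ℝ) * (b : ℝ) ^ d * eta d t) := by
      rw [he]
      ring
    rw [h4]
    calc 4 * (k : ℝ) * d * ((b : ℝ) * (b : ℝ) ^ d * eta d t) ≤
        4 * k * d * (3 * Real.sqrt (7 * d) / Real.log s) :=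
          mul_le_mul_of_nonneg_left h3 (by positivity)
      _ = _ := by ring
  -- the main part
  have hwn : ∀ y ∈ M0.toList, ∀ σ, 0 ≤ wUnif (QK.box d L b) y σ := by
    intro y _ σ
    unfold wUnif
    split_ifs
    · positivity
    · exact le_rfl
  have hws : ∀ y ∈ M0.toList, ∑ σ, wUnif (QK.box d L b) y σ = 1 := fun y _ => wUnif_sum9 _ y
  set H : Equiv.Perm (Fin d → ZMod L) → ℝ :=
    fun g => JL (wUnif (QK.box d L b)) (fun x => patI τ x z) M0.toList g with hH
  have hH0 : ∀ g, 0 ≤ H g := by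
    intro g
    have h1 := JL_mono' (π := wUnif (QK.box d L b)) (G := fun _ => (0 : ℝ))
      (H := fun x => patI τ x z) hF0 hwn g
    rwa [JL_const' 0 hws g] at h1
  have hH1 : ∀ g, H g ≤ 1 := by
    intro g
    have h1 := JL_mono' (π := wUnif (QK.box d L b)) (G := fun x => patI τ x z)
      (H := fun _ => (1 : ℝ)) hF1 hwn g
    rwa [JL_const' 1 hws g] at h1
  have hrel : ((relCl τ).card : ℝ) ≤ (k.factorial : ℝ) := by
    have h1 : (relCl τ).card ≤ Fintype.card (Equiv.Perm (Fin k)) := Finset.card_le_univ _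
    rw [Fintype.card_perm, Fintype.card_fin] at h1
    exact_mod_cast h1
  have hkf : (0 : ℝ) < (k.factorial : ℝ) := by exact_mod_cast Nat.factorial_pos k
  have hc00 : 0 ≤ c0 := by positivity
  have hc01 : c0 ≤ 1 := by
    rw [hc0, div_le_one hkf]
    exact hrel
  set κ : ℝ := (7 * d + 7) * Real.log s with hκ
  set err : ℝ := 2 * (k : ℝ) ^ 2 * (k.factorial : ℝ) * (4 * k * (C / (b : ℝ) ^ d)
    + C * (((J : ℝ) + 1) * (2 * (s : ℝ)) ^ d) ^ 2 * Real.exp (-(κ / 2))) with herr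
  have herr0 : 0 ≤ err := by positivity
  have hmain := assemble (c := QK.tr d L) QK.tr_nonneg hh (t' := t - J * h) (by linarith) hmix hw0
    hw1 J hH0 hH1 hc00 hc01
    (fun l => GoodEnvL (envS S l) (envW S (QK.box d L b) M0 l) J (b ^ d) r c1 M Kw 0 s)
    (err := err) (δ := 1 / s) herr0 ?_ (hbad M0 hdM0 hM0dp)
  · have h2 : (J : ℝ) * h + (t - J * h) = t := by ring
    rw [h2, ← QK.expect_eq] at hmain
    have h3 : err + 1 / s ≤ ε / 2 := by
      refine le_trans ?_ hK2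
      have h4 : 1 / (s : ℝ) ≤ 1 / Real.log s :=
        one_div_le_one_div_of_le hx0 (Real.log_le_self hs0.le)
      have h5 : C / (s : ℝ) ≤ C / Real.log s :=
        div_le_div_of_nonneg_left (by linarith) hx0 (Real.log_le_self hs0.le)
      have h6 : err ≤ 2 * (k : ℝ) ^ 2 * (k.factorial : ℝ) *
          (4 * k * (C / Real.log s) + C / Real.log s) := by
        rw [herr]
        refine mul_le_mul_of_nonneg_left ?_ (by positivity)
        exact add_le_add (mul_le_mul_of_nonneg_left n5 (by positivity)) (n6.trans h5)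
      calc err + 1 / s ≤ 2 * (k : ℝ) ^ 2 * (k.factorial : ℝ) *
          (4 * k * (C / Real.log s) + C / Real.log s) + 1 / Real.log s := add_le_add h6 h4
        _ = _ := by ring
    have h7 : |expect d L t (fun σ => patI τ σ z) - c0| ≤
        |expect d L t H - expect d L t (fun σ => patI τ σ z)| + |expect d L t H - c0| := by
      rw [abs_sub_comm (expect d L t H) (expect d L t fun σ => patI τ σ z)]
      have h8 := abs_add_le (expect d L t (fun σ => patI τ σ z) - expect d L t H)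
        (expect d L t H - c0)
      rwa [sub_add_sub_cancel] at h8
    refine h7.trans ?_
    have h8 : |expect d L t H - expect d L t (fun σ => patI τ σ z)| ≤ M0.card * e := hins
    linarith
  · intro Φ l hlJ hl hg
    have h1 := hin L Ω S (QK.box d L b) D0 ((2 * (s : ℝ)) ^ d) l M0 Φ k z τ r M Kw κ 0 s hgD hM0D
      hDc (zero_mem_box hb1) (by omega) hr8 (by omega) hrs (by omega) hM
      (by rw [hlJ, hcard]; exact hg) (by rw [hcardR]; exact hMK)
      (by rw [hcardR, hlJ]; exact hbJ) hl hdis hdM0 hzinj hzM n1 (by rw [hcardR]; exact n2)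
      (by rw [hcardR, hlJ]; exact n3) (by rw [hcardR, hlJ]; exact n4)
    rw [hcardR, hlJ] at h1
    exact h1

end Pool.Agent.Stirring.LC
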