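import Pool.Agent.Lib.MP_6c3d62_pr.Mg.G072
import Pool.Agent.Lib.MP_6c3d62_pr.LC.Far
import Pool.Agent.Lib.MP_6c3d62_pr.Mg.G074

/-! The final theorem of the local version. -/

open Finset

set_option autoImplicit false
set_option linter.unusedSectionVars false

namespace Pool.Agent.Stirring.LC

open Pool.Agent.Stirring

/-- The law of the traces of the cycles on a set of diameter `r`, `(log r) ^ C ≤ t`. -/
theorem share_close_local (d : ℕ) (hd : 2 ≤ d) : ∃ C : ℕ, ∀ (m : ℕ) (f : (Fin m → ℝ) → ℝ),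
    Continuous f → ∀ δ : ℝ, 0 < δ → ∃ t₀ : ℝ, ∀ (L : ℕ) [NeZero L], 3 ≤ L → ∀ t r : ℝ, t₀ ≤ t →
      1 ≤ r → Real.log r ^ C ≤ t →
      ∀ B : Finset (Fin d → ZMod L), B.Nonempty → Near d L B r →
      |expect d L t (fun σ => f fun i => share σ B i) -
        (∑ τ : Equiv.Perm (Fin B.card), f fun i => share τ Finset.univ i) /
          (B.card.factorial : ℝ)| ≤ δ := by
  obtain ⟨A, B, c1, hc1, hev⟩ := PL.env_good_local d hd
  obtain ⟨C, hC⟩ := lklaw_of (d := d) hd ⟨_, _, klaw_far_of_env d hd hc1 hev⟩ (klaw_torus d hd)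
  exact ⟨C, fun m f hf δ hδ => share_close_of_lklaw hC hf hδ⟩

end Pool.Agent.Stirring.LC
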